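import Pool.Agent.Helper66.SB.Goals
import Mathlib.RingTheory.Nullstellensatz
import Mathlib.RingTheory.Polynomial.UniqueFactorization

/-!
# Project SB (MP_d3128a_ag): packet PT (points of the curve)
-/

set_option autoImplicit false

namespace Pool.Agent.Helper18.SB

open MvPolynomial Pool.Agent.Helper66.SB Helper18.Shgh

theorem gPT : G_PT := by
  intro F W hF hFW
  by_contra hcon
  have h0 : ∀ R : Fin 2 → ℂ, eval R F = 0 → eval R W = 0 := by
    intro R hR
    by_contra h
    exact hcon ⟨R, hR, h⟩
  have h1 : W ∈ vanishingIdeal ℂ (zeroLocus ℂ (Ideal.span {F} : Ideal (MvPolynomial (Fin 2) ℂ))) := by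
    rw [mem_vanishingIdeal_iff]
    intro x hx
    rw [mem_zeroLocus_iff] at hx
    have h2 := hx F (Ideal.mem_span_singleton_self F)
    rw [aeval_eq_eval] at h2 ⊢
    exact h0 x h2
  rw [vanishingIdeal_zeroLocus_eq_radical] at h1
  have hp : (Ideal.span {F} : Ideal (MvPolynomial (Fin 2) ℂ)).IsPrime :=
    (Ideal.span_singleton_prime hF.ne_zero).mpr hF.prime
  rw [hp.isRadical.radical, Ideal.mem_span_singleton] at h1
  exact hFW h1

end Pool.Agent.Helper18.SB
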